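import Mathlib
import Pool.Agent.W222.UABC.Schmidt

/-!
# A bound of Schmidt's type for the number of extensions of a number field, uniform in the field
-/

set_option autoImplicit false

namespace Pool.Agent.Y729.SC

open NumberField Module Polynomial Pool.Agent.W301.Lin Pool.Agent.W222.UABC

section

variable {K L : Type} [Field K] [NumberField K] [Field L] [NumberField L] [Algebra K L]

omit [NumberField K] [NumberField L] in
/-- the degree of a proper subfield -/
theorem rel_proper [FiniteDimensional K L] {n : ℕ} (hn : finrank K L = n)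
    (F : IntermediateField K L) (hF : F ≠ ⊤) : finrank K F ≤ n / n.minFac := by
  have hn0 : 0 < n := by rw [← hn]; exact finrank_pos
  have hne : finrank K F ≠ n := by
    intro h
    apply hF
    refine IntermediateField.eq_of_le_of_finrank_eq le_top ?_
    rw [h, IntermediateField.finrank_top', hn]
  obtain ⟨k, hk⟩ : finrank K F ∣ n := by
    rw [← hn]
    exact ⟨finrank F L, (finrank_mul_finrank K F L).symm⟩
  have hk1 : k ≠ 1 := by
    rintro rfl
    rw [mul_one] at hk
    exact hne hk.symm
  have h1 : n.minFac ≤ k := Nat.minFac_le_of_dvd (by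
    rcases k with _ | _ | k
    · omega
    · omega
    · omega) ⟨finrank K F, by rw [mul_comm]; exact hk⟩
  rw [Nat.le_div_iff_mul_le (Nat.minFac_pos n)]
  calc finrank K F * n.minFac ≤ finrank K F * k := Nat.mul_le_mul_left _ h1
    _ = n := hk.symm

/-- the field on which two embeddings agree -/
noncomputable def relEq {A : Type} [Field A] [Algebra K A] (σ τ : L →ₐ[K] A) :
    IntermediateField K L :=
  (AlgHom.equalizer σ τ).toIntermediateField (by
    intro x hx
    rw [AlgHom.mem_equalizer] at hx ⊢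
    rw [map_inv₀, map_inv₀, hx])

omit [NumberField K] [NumberField L] in
theorem mem_relEq {A : Type} [Field A] [Algebra K A] (σ τ : L →ₐ[K] A) (x : L) :
    x ∈ relEq σ τ ↔ σ x = τ x := by
  unfold relEq
  rfl

theorem house_alg (z : K) : house (algebraMap K L z) ≤ house z := by
  rw [house, canonicalEmbedding.norm_le_iff]
  intro φ
  exact norm_embedding_le_house z (φ.comp (algebraMap K L))

/-- a generator with small conjugates and without trace -/
theorem rel_gen {n k0 : ℕ} (hn : finrank K L = n) (hk0 : finrank ℚ K = k0)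
    (h2 : 2 ≤ n) (H : ℝ) (hH : 1 ≤ H)
    (hbig : 6 ^ (finrank ℚ L) * √|(discr L : ℝ)| < H ^ (k0 * (n - n / n.minFac))) :
    ∃ α : L, IsIntegral ℤ α ∧ house α ≤ (2 * n * (n * (n ^ 3) ^ n) : ℕ) * H ∧
      Algebra.trace K L α = 0 ∧ IntermediateField.adjoin K {α} = ⊤ := by
  classical
  have : FiniteDimensional K L := Module.Finite.of_restrictScalars_finite ℚ K L
  set A := AlgebraicClosure K with hA
  set t := n / n.minFac + 1 with ht
  have hp : 2 ≤ n.minFac := (Nat.minFac_prime (by omega)).two_le
  have htn : t ≤ n := by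
    have : n / n.minFac ≤ n / 2 := Nat.div_le_div_left hp (by norm_num)
    omega
  obtain ⟨v, hv, hli⟩ := exists_small_indep K L t (by rw [hn]; exact htn) H hH (by
    rw [hk0, hn, show n + 1 - t = n - n / n.minFac by omega]
    exact hbig)
  set pol : (L →ₐ[K] A) → (L →ₐ[K] A) → A[X] := fun σ τ =>
    ∑ j : Fin t, C (σ (v j) - τ (v j)) * X ^ (j : ℕ) with hpol
  have hpolne : ∀ σ τ, σ ≠ τ → pol σ τ ≠ 0 := by
    intro σ τ hst h0
    have hco : ∀ j : Fin t, σ (v j) = τ (v j) := by
      intro j
      have h1 := congrArg (fun p : A[X] => p.coeff (j : ℕ)) h0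
      simp only [hpol, finsetSum_coeff, coeff_C_mul, coeff_X_pow, coeff_zero] at h1
      rw [Finset.sum_eq_single j] at h1
      · simpa [sub_eq_zero] using h1
      · intro k _ hk
        rw [if_neg (fun h => hk (Fin.ext h.symm)), mul_zero]
      · intro h
        exact absurd (Finset.mem_univ j) h
    have hFt : relEq σ τ ≠ ⊤ := by
      intro h
      apply hst
      ext x
      have : x ∈ relEq σ τ := by rw [h]; exact IntermediateField.mem_top
      exact (mem_relEq σ τ x).1 this
    have h1 := rel_proper hn _ hFt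
    set w : Fin t → relEq σ τ := fun j => ⟨v j, (mem_relEq σ τ _).2 (hco j)⟩ with hw
    have hw' : LinearIndependent K w := by
      refine LinearIndependent.of_comp (relEq σ τ).val.toLinearMap ?_
      exact hli
    have h3 := hw'.fintype_card_le_finrank
    rw [Fintype.card_fin] at h3
    omega
  have hpdeg : ∀ σ τ, (pol σ τ).natDegree ≤ n := by
    intro σ τ
    refine natDegree_sum_le_of_forall_le _ _ fun j _ => ?_
    refine (natDegree_C_mul_X_pow_le _ _).trans ?_
    have := j.2
    omega
  set Q := (Finset.univ : Finset ((L →ₐ[K] A) × (L →ₐ[K] A))).filter (fun q => q.1 ≠ q.2) with hQ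
  set P : A[X] := ∏ q ∈ Q, pol q.1 q.2 with hP
  have hP0 : P ≠ 0 := by
    rw [hP, Finset.prod_ne_zero_iff]
    intro q hq
    exact hpolne _ _ (Finset.mem_filter.1 hq).2
  have hQc : Q.card ≤ n ^ 2 := by
    refine (Finset.card_filter_le _ _).trans ?_
    rw [Finset.card_univ, Fintype.card_prod, AlgHom.card, hn, sq]
  have hdeg : P.natDegree < n ^ 3 + 1 := by
    have h1 : P.natDegree ≤ ∑ q ∈ Q, (pol q.1 q.2).natDegree := natDegree_prod_le _ _
    have h3 : ∑ q ∈ Q, (pol q.1 q.2).natDegree ≤ Q.card * n := by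
      rw [← smul_eq_mul]
      exact Finset.sum_le_card_nsmul _ _ _ fun q _ => hpdeg _ _
    have h4 : Q.card * n ≤ n ^ 2 * n := Nat.mul_le_mul_right _ hQc
    have h5 : n ^ 2 * n = n ^ 3 := by ring
    omega
  obtain ⟨m, hm, hPm⟩ : ∃ m : ℕ, m ≤ n ^ 3 ∧ P.eval (m : A) ≠ 0 := by
    by_contra hcon
    push Not at hcon
    apply hP0
    refine eq_zero_of_natDegree_lt_card_of_eval_eq_zero (ι := Fin (n ^ 3 + 1)) P
      (f := fun i => ((i : ℕ) : A)) ?_ ?_ ?_
    · intro i j hij
      exact Fin.ext (Nat.cast_injective hij)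
    · intro i
      exact hcon i (by have := i.2; omega)
    · rw [Fintype.card_fin]
      exact hdeg
  set β : L := ∑ j : Fin t, ((m ^ (j : ℕ) : ℕ) : L) * v j with hβ
  have hβeval : ∀ σ τ : L →ₐ[K] A, (pol σ τ).eval (m : A) = σ β - τ β := by
    intro σ τ
    simp only [hpol, hβ, eval_finsetSum, eval_mul, eval_C, eval_pow, eval_X, map_sum, map_mul,
      map_natCast]
    rw [← Finset.sum_sub_distrib]
    refine Finset.sum_congr rfl fun j _ => ?_
    push_cast
    ring
  have hβinj : ∀ σ τ : L →ₐ[K] A, σ β = τ β → σ = τ := by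
    intro σ τ h
    by_contra hst
    apply hPm
    rw [hP, eval_prod, Finset.prod_eq_zero_iff]
    refine ⟨(σ, τ), Finset.mem_filter.2 ⟨Finset.mem_univ _, hst⟩, ?_⟩
    simp only
    rw [hβeval, h, sub_self]
  have hβint : IsIntegral ℤ β := integral_comb v (fun j => m ^ (j : ℕ)) fun j => (hv j).1
  have hβhouse : house β ≤ t * ((n ^ 3) ^ n : ℕ) * H :=
    house_comb_le v (fun j => m ^ (j : ℕ)) ((n ^ 3) ^ n) H (fun j => by
      have h1 : m ^ (j : ℕ) ≤ (n ^ 3) ^ (j : ℕ) := Nat.pow_le_pow_left hm _
      refine h1.trans (Nat.pow_le_pow_right (by positivity) ?_)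
      have := j.2
      omega) fun j => (hv j).2
  have htint : IsIntegral ℤ (Algebra.trace K L β) := Algebra.isIntegral_trace hβint
  have htr : house (Algebra.trace K L β) ≤ n * house β := by
    have := house_trace_le (K := K) β
    rwa [hn] at this
  refine ⟨(n : L) * β - algebraMap K L (Algebra.trace K L β), ?_, ?_, ?_, ?_⟩
  · refine IsIntegral.sub (IsIntegral.mul ?_ hβint) htint.algebraMap
    have : ((n : ℕ) : L) = algebraMap ℤ L (n : ℤ) := by simp
    rw [this]
    exact isIntegral_algebraMap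
  · have h1 : house ((n : L) * β - algebraMap K L (Algebra.trace K L β)) ≤
        house ((n : L) * β) + house (-(algebraMap K L (Algebra.trace K L β))) := by
      rw [sub_eq_add_neg]
      exact house_add_le _ _
    have h3 : house (-(algebraMap K L (Algebra.trace K L β))) ≤ n * house β := by
      rw [← map_neg]
      refine (house_alg (L := L) (-(Algebra.trace K L β))).trans ?_
      have : house (-(Algebra.trace K L β)) = house (Algebra.trace K L β) := by
        unfold house
        rw [map_neg, norm_neg]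
      rw [this]
      exact htr
    rw [house_nat_mul] at h1
    have h4 : house ((n : L) * β - algebraMap K L (Algebra.trace K L β)) ≤ 2 * n * house β := by
      linarith
    refine h4.trans ?_
    have ht' : (t : ℝ) ≤ n := by exact_mod_cast htn
    calc 2 * n * house β ≤ 2 * n * (t * ((n ^ 3) ^ n : ℕ) * H) := by gcongr
      _ ≤ 2 * n * (n * ((n ^ 3) ^ n : ℕ) * H) := by gcongr
      _ = _ := by push_cast; ring
  · have h1 : Algebra.trace K L ((n : L) * β) = n * Algebra.trace K L β := by
      have : (n : L) * β = (n : K) • β := by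
        rw [Algebra.smul_def]
        simp
      rw [this, map_smul, smul_eq_mul]
    rw [map_sub, h1, Algebra.trace_algebraMap, hn, nsmul_eq_mul, sub_self]
  · rw [Field.primitive_element_iff_algHom_eq_of_eval' K A
      (fun x => IsAlgClosed.splits _)]
    intro σ τ h
    apply hβinj
    simp only [map_sub, map_mul, map_natCast, AlgHom.commutes] at h
    have hn0' : (n : A) ≠ 0 := by
      rw [Ne, Nat.cast_eq_zero]
      omega
    exact mul_left_cancel₀ hn0' (sub_left_injective h)

end

section

variable {K : Type} [Field K] [NumberField K]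

/-- the data of a field -/
theorem rel_data {n : ℕ} (h2 : 2 ≤ n) (T : ℝ) (hT : 1 ≤ T)
    (L : IntermediateField K (AlgebraicClosure K)) [NumberField L] (hn : finrank K L = n)
    (α : L) (hα : IsIntegral ℤ α) (hh : house α ≤ T) (htr : Algebra.trace K L α = 0)
    (hgen : IntermediateField.adjoin K {α} = ⊤) :
    ∃ g : Fin (n - 1) → K, (∀ i : Fin (n - 1), g i ∈ Box K (2 ^ n * T ^ (n - (i : ℕ)))) ∧
      aeval (α : AlgebraicClosure K)
        (X ^ n + ∑ i : Fin (n - 1), C (g i) * X ^ (i : ℕ) : K[X]) = 0 ∧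
      IntermediateField.adjoin K {(α : AlgebraicClosure K)} = L := by
  have hfinL : FiniteDimensional K L := Module.Finite.of_restrictScalars_finite ℚ K L
  have hαQ : IsIntegral K α := Algebra.IsIntegral.isIntegral α
  have hmon : (minpoly K α).Monic := minpoly.monic hαQ
  have hdeg : (minpoly K α).natDegree = n := by
    rw [(Field.primitive_element_iff_minpoly_natDegree_eq K α).1 hgen, hn]
  have hnext : (minpoly K α).coeff (n - 1) = 0 := by
    have h1 := trace_eq_finrank_mul_minpoly_nextCoeff K α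
    rw [htr, hgen, IntermediateField.finrank_top] at h1
    have h3 : (minpoly K α).nextCoeff = 0 := by simpa using h1.symm
    rwa [nextCoeff_of_natDegree_pos (by rw [hdeg]; omega), hdeg] at h3
  refine ⟨fun i => (minpoly K α).coeff i, ?_, ?_, ?_⟩
  · intro i
    rw [mem_Box]
    constructor
    · have : IsScalarTower ℤ (𝓞 K) L := IsScalarTower.of_algebraMap_eq' (RingHom.ext_int _ _)
      have h1 : minpoly K α = (minpoly (𝓞 K) α).map (algebraMap (𝓞 K) K) :=
        minpoly.isIntegrallyClosed_eq_field_fractions' K hα.tower_top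
      simp only
      rw [h1, coeff_map]
      exact ((minpoly (𝓞 K) α).coeff (i : ℕ)).2
    · rw [house, canonicalEmbedding.norm_le_iff]
      intro φ
      let _ := φ.toAlgebra
      have h1 := coeff_le_of_roots_le (p := minpoly K α) (f := algebraMap K ℂ) (B := T) (i : ℕ)
        hmon (IsAlgClosed.splits _) (by
          intro z hz
          have hz' : z ∈ (minpoly K α).rootSet ℂ := by
            rw [mem_rootSet]
            refine ⟨minpoly.ne_zero hαQ, ?_⟩
            have := (mem_roots'.1 hz).2
            rwa [IsRoot.def, eval_map_algebraMap] at this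
          rw [← Algebra.IsAlgebraic.range_eval_eq_rootSet_minpoly] at hz'
          obtain ⟨ψ, rfl⟩ := hz'
          exact (norm_embedding_le_house α (ψ : L →+* ℂ)).trans hh)
      rw [coeff_map, hdeg] at h1
      refine h1.trans ?_
      rw [mul_comm]
      have h4 : (n.choose (i : ℕ) : ℝ) ≤ 2 ^ n := by
        exact_mod_cast Nat.choose_le_two_pow n i
      gcongr
  · have hpoly : (X ^ n + ∑ i : Fin (n - 1), C ((minpoly K α).coeff i) * X ^ (i : ℕ) : K[X]) =
        minpoly K α := by
      conv_rhs => rw [(minpoly K α).as_sum_range_C_mul_X_pow, hdeg,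
        Finset.sum_range_succ, show n = (n - 1) + 1 by omega, Finset.sum_range_succ,
        show n - 1 + 1 = n by omega, hnext]
      rw [Fin.sum_univ_eq_sum_range (fun i => C ((minpoly K α).coeff i) * X ^ i) (n - 1)]
      have : (minpoly K α).coeff n = 1 := by
        rw [← hdeg]
        exact hmon
      rw [this]
      simp
      ring
    rw [hpoly]
    have h1 := congrArg (algebraMap L (AlgebraicClosure K)) (minpoly.aeval K α)
    rw [map_zero, ← aeval_algebraMap_apply] at h1
    exact h1
  · have hle : IntermediateField.adjoin K {(α : AlgebraicClosure K)} ≤ L := by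
      rw [IntermediateField.adjoin_simple_le_iff]
      exact α.2
    have hmin : minpoly K (α : AlgebraicClosure K) = minpoly K α :=
      minpoly.algebraMap_eq (algebraMap L (AlgebraicClosure K)).injective α
    refine IntermediateField.eq_of_le_of_finrank_eq hle ?_
    have hint : IsIntegral K (α : AlgebraicClosure K) := Algebra.IsIntegral.isIntegral _
    rw [IntermediateField.adjoin.finrank hint, hmin, hdeg]
    exact hn.symm

/-- the polynomials which occur -/
noncomputable def rpol (n : ℕ) (g : Fin (n - 1) → K) : K[X] :=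
  X ^ n + ∑ i : Fin (n - 1), C (g i) * X ^ (i : ℕ)

omit [NumberField K] in
theorem rpol_deg {n : ℕ} (h2 : 2 ≤ n) (g : Fin (n - 1) → K) :
    (∑ i : Fin (n - 1), C (g i) * X ^ (i : ℕ) : K[X]).degree < n := by
  refine lt_of_le_of_lt (degree_sum_le _ _) ?_
  rw [Finset.sup_lt_iff (by exact_mod_cast WithBot.bot_lt_coe n)]
  intro i _
  refine lt_of_le_of_lt (degree_C_mul_X_pow_le _ _) ?_
  have := i.2
  exact_mod_cast (by omega : (i : ℕ) < n)

omit [NumberField K] in
theorem rpol_monic {n : ℕ} (h2 : 2 ≤ n) (g : Fin (n - 1) → K) : (rpol n g).Monic :=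
  monic_X_pow_add (rpol_deg h2 g)

omit [NumberField K] in
theorem rpol_natDegree {n : ℕ} (h2 : 2 ≤ n) (g : Fin (n - 1) → K) :
    (rpol n g).natDegree = n := by
  unfold rpol
  rw [natDegree_add_eq_left_of_degree_lt]
  · exact natDegree_X_pow n
  · rw [degree_X_pow]
    exact rpol_deg h2 g

theorem rel_count {n k0 : ℕ} (hk0 : finrank ℚ K = k0) (h2 : 2 ≤ n) (T : ℝ) (hT : 1 ≤ T)
    (S : Set (IntermediateField K (AlgebraicClosure K)))
    (hS : ∀ L ∈ S, ∃ (g : Fin (n - 1) → K) (a : AlgebraicClosure K),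
      (∀ i : Fin (n - 1), g i ∈ Box K (2 ^ n * T ^ (n - (i : ℕ)))) ∧ aeval a (rpol n g) = 0 ∧
        IntermediateField.adjoin K {a} = L) :
    S.Finite ∧ (S.ncard : ℝ) ≤
      n * ((3 * 2 ^ n) ^ (n - 1) * T ^ (∑ i : Fin (n - 1), (n - (i : ℕ)))) ^ k0 := by
  classical
  set BB : Finset (Fin (n - 1) → K) := Fintype.piFinset fun i =>
    Box K (2 ^ n * T ^ (n - (i : ℕ))) with hBox
  set R : Finset (AlgebraicClosure K) := BB.biUnion fun g =>
    ((rpol n g).aroots (AlgebraicClosure K)).toFinset with hR
  have hsub : S ⊆ (fun a => IntermediateField.adjoin K {a}) '' (R : Set (AlgebraicClosure K)) := by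
    intro L hL
    obtain ⟨g, a, hg, ha, hLa⟩ := hS L hL
    refine ⟨a, ?_, hLa⟩
    rw [Finset.mem_coe, hR, Finset.mem_biUnion]
    refine ⟨g, ?_, ?_⟩
    · rw [hBox, Fintype.mem_piFinset]
      exact hg
    · rw [Multiset.mem_toFinset, mem_aroots]
      exact ⟨(rpol_monic h2 g).ne_zero, ha⟩
  have hfin : S.Finite := (R.finite_toSet.image _).subset hsub
  refine ⟨hfin, ?_⟩
  have h1 : S.ncard ≤ R.card := by
    refine (Set.ncard_le_ncard hsub (R.finite_toSet.image _)).trans ?_
    refine (Set.ncard_image_le R.finite_toSet).trans ?_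
    rw [Set.ncard_coe_finset]
  have h3 : R.card ≤ BB.card * n := by
    refine Finset.card_biUnion_le_card_mul _ _ _ fun g _ => ?_
    refine (Multiset.toFinset_card_le _).trans ?_
    have h4 := card_roots' ((rpol n g).map (algebraMap K (AlgebraicClosure K)))
    rw [(rpol_monic h2 g).natDegree_map, rpol_natDegree h2 g] at h4
    exact h4
  have h5 : (BB.card : ℝ) ≤
      ((3 * 2 ^ n) ^ (n - 1) * T ^ (∑ i : Fin (n - 1), (n - (i : ℕ)))) ^ k0 := by
    rw [hBox, Fintype.card_piFinset]
    push_cast
    have h6 : ∀ i : Fin (n - 1), ((Box K (2 ^ n * T ^ (n - (i : ℕ)))).card : ℝ) ≤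
        (3 * 2 ^ n * T ^ (n - (i : ℕ))) ^ k0 := by
      intro i
      have h7 := card_Box K (2 ^ n * T ^ (n - (i : ℕ))) (by positivity)
      rw [hk0] at h7
      refine h7.trans ?_
      have h10 : (1 : ℝ) ≤ (2 : ℝ) ^ n * T ^ (n - (i : ℕ)) :=
        one_le_mul_of_one_le_of_one_le (one_le_pow₀ (by norm_num)) (one_le_pow₀ hT)
      refine pow_le_pow_left₀ (by linarith) ?_ _
      linarith
    refine (Finset.prod_le_prod (fun i _ => Nat.cast_nonneg _) fun i _ => h6 i).trans (le_of_eq ?_)
    rw [Finset.prod_pow, Finset.prod_mul_distrib, Finset.prod_const, Finset.card_univ,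
      Fintype.card_fin, Finset.prod_pow_eq_pow_sum]
  calc (S.ncard : ℝ) ≤ (BB.card * n : ℕ) := by exact_mod_cast h1.trans h3
    _ = n * BB.card := by push_cast; ring
    _ ≤ _ := mul_le_mul_of_nonneg_left h5 (Nat.cast_nonneg _)

end

/-- **A bound of Schmidt's type**, uniform in the base field -/
theorem schmidtK {n : ℕ} (h2 : 2 ≤ n) (k0 : ℕ) : ∃ C : ℝ, 0 < C ∧
    ∀ (K : Type) [Field K] [NumberField K], finrank ℚ K = k0 → ∀ X : ℝ, 1 ≤ X →
      (FS K n X).Finite ∧ ((FS K n X).ncard : ℝ) ≤ C * X ^ eS n := by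
  rcases Nat.eq_zero_or_pos k0 with rfl | hk0p
  · refine ⟨1, one_pos, fun K _ _ hK => ?_⟩
    have : 0 < finrank ℚ K := Module.finrank_pos
    omega
  have hp : 2 ≤ n.minFac := (Nat.minFac_prime (by omega)).two_le
  set q := n - n / n.minFac with hq
  have hq0 : 0 < q := by
    have : n / n.minFac ≤ n / 2 := Nat.div_le_div_left hp (by norm_num)
    omega
  set s := ∑ i : Fin (n - 1), (n - (i : ℕ)) with hs
  have hs2 : 2 * s = (n + 2) * (n - 1) := sum_fin n h2
  set A : ℝ := ((2 * n * (n * (n ^ 3) ^ n) : ℕ) : ℝ) with hA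
  have hA1 : 1 ≤ A := by
    rw [hA]
    have : 1 ≤ 2 * n * (n * (n ^ 3) ^ n) := Nat.one_le_iff_ne_zero.2 (by positivity)
    exact_mod_cast this
  set c1 : ℝ := ((7 : ℝ) ^ (k0 * n)) ^ ((k0 * s : ℕ) / ((k0 * q : ℕ) : ℝ)) with hc1
  refine ⟨n * (((3 * 2 ^ n) ^ (n - 1) * A ^ s) ^ k0 * c1), by positivity, ?_⟩
  intro K _ _ hk0 X hX
  set H : ℝ := Hf k0 n q X with hH
  have hH1 : 1 ≤ H := one_le_Hf k0 n q X hX
  have hT : 1 ≤ A * H := one_le_mul_of_one_le_of_one_le hA1 hH1
  have hcount := rel_count hk0 h2 (A * H) hT (FS K n X) (by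
    rintro L ⟨hn, hNF, hD⟩
    have hD' : |(discr L : ℝ)| ≤ X := by
      rw [← Int.cast_abs]; exact hD
    have hbig := Hf_spec (K := K) (L := L) hn hk0 q hq0 X hX hD'
    obtain ⟨α, h3, h4, h5, h6⟩ := rel_gen hn hk0 h2 H hH1 hbig
    obtain ⟨g, h7, h8, h9⟩ := rel_data h2 (A * H) hT L hn α h3 h4 h5 h6
    exact ⟨g, α, h7, h8, h9⟩)
  refine ⟨hcount.1, hcount.2.trans (le_of_eq ?_)⟩
  have hHs : (H ^ s) ^ k0 = c1 * X ^ eS n := by
    rw [← pow_mul, mul_comm s k0, hH, Hf, ← Real.rpow_natCast, ← Real.rpow_mul (by positivity),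
      Real.mul_rpow (by positivity) (by positivity), Real.sqrt_eq_rpow,
      ← Real.rpow_mul (by linarith)]
    have hk0' : (k0 : ℝ) ≠ 0 := by exact_mod_cast hk0p.ne'
    have hq0' : (q : ℝ) ≠ 0 := by exact_mod_cast hq0.ne'
    congr 2
    · ring
    · unfold eS
      rw [← hs2, ← hq]
      push_cast
      field_simp
      ring
  rw [mul_pow A H, ← mul_assoc, mul_pow _ (H ^ s), hHs]
  ring

end Pool.Agent.Y729.SC
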